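import Mathlib

set_option autoImplicit false

open SimpleGraph

namespace Pool.Agent.Results.MP_42f001_co.PrimeReduction

/-- The vertex `y` is a function of the (distinct) vertices `x 0, ..., x (k-1)`, all different from
`y`: the adjacency of `y` to every other vertex `z` is a fixed Boolean function of the adjacencies
of the `x i` to `z`. -/
def IsFunctionOf {V : Type} (G : SimpleGraph V) (y : V) {k : ℕ} (x : Fin k → V) : Prop :=
  Function.Injective x ∧ (∀ i, x i ≠ y) ∧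
    ∃ f : (Fin k → Prop) → Prop,
      ∀ z, z ≠ y → (∀ i, z ≠ x i) → (G.Adj y z ↔ f (fun i => G.Adj (x i) z))

/-- The functionality of the vertex `y` in `G`: the least `k` such that `y` is a function of some
`k` vertices. -/
noncomputable def vertexFun {V : Type} (G : SimpleGraph V) (y : V) : ℕ :=
  sInf {k | ∃ x : Fin k → V, IsFunctionOf G y x}

/-- `fun(G) ≤ K`: every nonempty induced subgraph has a vertex of functionality at most `K` in it. -/
def FunLE {V : Type} (G : SimpleGraph V) (K : ℕ) : Prop :=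
  ∀ S : Set V, S.Nonempty → ∃ y : S, vertexFun (G.induce S) y ≤ K

/-- `M` is a module of `G`. -/
def IsModule {V : Type} (G : SimpleGraph V) (M : Set V) : Prop :=
  ∀ v, v ∉ M → (∀ m ∈ M, G.Adj v m) ∨ (∀ m ∈ M, ¬ G.Adj v m)

/-- `G` is prime: its only modules are the trivial ones. -/
def IsPrimeGraph {V : Type} (G : SimpleGraph V) : Prop :=
  ∀ M : Set V, IsModule G M → M = ∅ ∨ M = Set.univ ∨ ∃ v, M = {v}

/-- `X` is a hereditary class of finite graphs: it is closed under isomorphism and under taking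
induced subgraphs. -/
def IsHereditary (X : ∀ V : Type, SimpleGraph V → Prop) : Prop :=
  ∀ (V W : Type) (G : SimpleGraph V) (H : SimpleGraph W), Nonempty (H ↪g G) → X V G → X W H

/-- set version -/
def SetFun {V : Type} (G : SimpleGraph V) (U : Set V) (y : V) (S : Set V) : Prop :=
  ∀ z z', z ∈ U → z' ∈ U → z ∉ S → z' ∉ S → z ≠ y → z' ≠ y →
    (∀ s ∈ S, G.Adj s z ↔ G.Adj s z') → (G.Adj y z ↔ G.Adj y z')

lemma setFun_of_le {V : Type} [Finite V] (G : SimpleGraph V) (y : V) (k : ℕ)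
    (h : vertexFun G y ≤ k) :
    ∃ S : Set V, y ∉ S ∧ S.ncard ≤ k ∧ SetFun G Set.univ y S := by
  have hne : {k | ∃ x : Fin k → V, IsFunctionOf G y x}.Nonempty := by
    have := Fintype.ofFinite V
    classical
    let T : Type := {v : V // v ≠ y}
    let e : Fin (Fintype.card T) ≃ T := (Fintype.equivFin T).symm
    refine ⟨Fintype.card T, fun i => (e i).1, ?_, fun i => (e i).2, fun _ => True, ?_⟩
    · intro a b hab
      exact e.injective (Subtype.ext hab)
    · intro z hz hz2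
      exfalso
      apply hz2 (e.symm ⟨z, hz⟩)
      simp
  obtain ⟨x, hinj, hxy, f, hf⟩ := Nat.sInf_mem hne
  refine ⟨Set.range x, ?_, ?_, ?_⟩
  · rintro ⟨i, hi⟩; exact hxy i hi
  · rw [← Set.image_univ, Set.ncard_image_of_injective _ hinj, Set.ncard_univ]
    simpa [vertexFun] using h
  · intro z z' _ _ hz hz' hzy hzy' hs
    rw [hf z hzy (fun i hi => hz ⟨i, hi.symm⟩), hf z' hzy' (fun i hi => hz' ⟨i, hi.symm⟩)]
    have : (fun i => G.Adj (x i) z) = (fun i => G.Adj (x i) z') := by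
      funext i
      exact propext (hs (x i) ⟨i, rfl⟩)
    rw [this]

lemma le_of_setFun {V : Type} [Finite V] (G : SimpleGraph V) (y : V) (k : ℕ) (S : Set V)
    (hy : y ∉ S) (hk : S.ncard ≤ k) (h : SetFun G Set.univ y S) : vertexFun G y ≤ k := by
  have := Fintype.ofFinite S
  refine le_trans (Nat.sInf_le ?_) hk
  have hc : Fintype.card S = S.ncard := by rw [Set.ncard_eq_toFinset_card', Set.toFinset_card]
  let e : Fin (S.ncard) ≃ S := (Fintype.equivFinOfCardEq hc).symm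
  refine ⟨fun i => (e i).1, ?_, ?_, fun p => ∃ z, z ∉ S ∧ z ≠ y ∧ G.Adj y z ∧
    ∀ i, p i ↔ G.Adj (e i).1 z, ?_⟩
  · intro a b hab
    exact e.injective (Subtype.ext hab)
  · intro i hi
    exact hy (hi ▸ (e i).2)
  · intro z hzy hz
    have hzS : z ∉ S := by
      intro hz'
      apply hz (e.symm ⟨z, hz'⟩)
      simp
    constructor
    · intro ha
      exact ⟨z, hzS, hzy, ha, fun i => Iff.rfl⟩
    · rintro ⟨z', hz'S, hz'y, ha, hp⟩
      rw [h z z' (Set.mem_univ _) (Set.mem_univ _) hzS hz'S hzy hz'y]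
      · exact ha
      · intro s hs
        have := hp (e.symm ⟨s, hs⟩)
        simpa using this


section core

variable {V : Type} (G : SimpleGraph V)

lemma SetFun.mono {U : Set V} {y : V} {S S' : Set V} (h : SetFun G U y S) (hS : S ⊆ S') :
    SetFun G U y S' := by
  intro z z' hz hz' h1 h2 h3 h4 h5
  exact h z z' hz hz' (fun h => h1 (hS h)) (fun h => h2 (hS h)) h3 h4 (fun s hs => h5 s (hS hs))

/-- from the module to the whole graph -/
lemma lift {M : Set V} (hM : IsModule G M) {y : V} {R : Set V} (hy : y ∈ M) (hR : R ⊆ M)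
    (hRn : R.Nonempty) (h : SetFun G M y R)
    (z0 : ∀ z ∈ M, z ∉ R → z ≠ y → (∀ t ∈ R, ¬ G.Adj t z) → ¬ G.Adj y z)
    (z1 : ∀ z ∈ M, z ∉ R → z ≠ y → (∀ t ∈ R, G.Adj t z) → G.Adj y z) :
    SetFun G Set.univ y R := by
  -- a vertex outside and a vertex inside
  have inout : ∀ z z', z ∈ M → z' ∉ M → z ∉ R → z ≠ y →
      (∀ s ∈ R, G.Adj s z ↔ G.Adj s z') → (G.Adj y z ↔ G.Adj y z') := by
    intro z z' hz hz' hzR hzy hs
    rcases hM z' hz' with h1 | h1
    · refine iff_of_true (z1 z hz hzR hzy ?_) (h1 y hy).symm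
      intro t ht
      rw [hs t ht]
      exact (h1 t (hR ht)).symm
    · refine iff_of_false (z0 z hz hzR hzy ?_) (fun h2 => h1 y hy h2.symm)
      intro t ht
      rw [hs t ht]
      exact fun h2 => h1 t (hR ht) h2.symm
  intro z z' _ _ hzR hz'R hzy hz'y hs
  by_cases hz : z ∈ M
  · by_cases hz' : z' ∈ M
    · exact h z z' hz hz' hzR hz'R hzy hz'y hs
    · exact inout z z' hz hz' hzR hzy hs
  · by_cases hz' : z' ∈ M
    · exact (inout z' z hz' hz hz'R hz'y (fun s h => (hs s h).symm)).symm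
    · obtain ⟨t, ht⟩ := hRn
      have h2 := hs t ht
      rcases hM z hz with h1 | h1 <;> rcases hM z' hz' with h1' | h1'
      · exact iff_of_true (h1 y hy).symm (h1' y hy).symm
      · exact absurd (h2.1 (h1 t (hR ht)).symm).symm (h1' t (hR ht))
      · exact absurd (h2.2 (h1' t (hR ht)).symm).symm (h1 t (hR ht))
      · exact iff_of_false (fun h3 => h1 y hy h3.symm) (fun h3 => h1' y hy h3.symm)

/-- outcome of one step -/
lemma step [Finite V] {M : Set V} (hM : IsModule G M) (k : ℕ)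
    (hk : ∀ U : Set V, U ⊆ M → U.Nonempty → ∃ y ∈ U, ∃ S ⊆ U, y ∉ S ∧ S.ncard ≤ k ∧ SetFun G U y S)
    (T : Set V) (hT : T ⊆ M) (hTn : T.Nonempty) (hMT : (M \ T).Nonempty) :
    (∃ y, ∃ R : Set V, y ∉ R ∧ R.ncard ≤ T.ncard + k ∧ SetFun G Set.univ y R) ∨
    (∃ T' ⊆ M, T ⊆ T' ∧ T'.ncard ≤ T.ncard + k + 1 ∧ (M \ T').Nonempty ∧
      ((∀ z ∈ M \ T', ∃ t ∈ T', G.Adj t z) ∧ ¬ (∀ z ∈ M \ T, ∃ t ∈ T, G.Adj t z) ∨
       (∀ z ∈ M \ T', ∃ t ∈ T', ¬ G.Adj t z) ∧ ¬ (∀ z ∈ M \ T, ∃ t ∈ T, ¬ G.Adj t z))) := by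
  obtain ⟨y, hyU, S, hSU, hyS, hSk, hfun⟩ := hk (M \ T) Set.sdiff_subset hMT
  have hyM : y ∈ M := hyU.1
  have hyR : y ∉ T ∪ S := by
    rintro (h | h)
    · exact hyU.2 h
    · exact hyS h
  have hRM : T ∪ S ⊆ M := Set.union_subset hT (hSU.trans Set.sdiff_subset)
  have hRn : (T ∪ S).Nonempty := hTn.mono Set.subset_union_left
  have hcard : (T ∪ S).ncard ≤ T.ncard + k :=
    (Set.ncard_union_le T S).trans (Nat.add_le_add_left hSk _)
  have hfunM : SetFun G M y (T ∪ S) := by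
    intro z z' hz hz' h1 h2 h3 h4 h5
    exact hfun z z' ⟨hz, fun h => h1 (Or.inl h)⟩ ⟨hz', fun h => h2 (Or.inl h)⟩
      (fun h => h1 (Or.inr h)) (fun h => h2 (Or.inr h)) h3 h4 (fun s hs => h5 s (Or.inr hs))
  by_cases z0 : ∀ z ∈ M, z ∉ T ∪ S → z ≠ y → (∀ t ∈ T ∪ S, ¬ G.Adj t z) → ¬ G.Adj y z
  · by_cases z1 : ∀ z ∈ M, z ∉ T ∪ S → z ≠ y → (∀ t ∈ T ∪ S, G.Adj t z) → G.Adj y z
    · left
      exact ⟨y, T ∪ S, hyR, hcard, lift G hM hyM hRM hRn hfunM z0 z1⟩
    · right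
      push Not at z1
      obtain ⟨z, hzM, hzR, hzy, hz1, hz2⟩ := z1
      refine ⟨insert y (T ∪ S), Set.insert_subset hyM hRM, ?_, ?_, ?_, Or.inr ⟨?_, ?_⟩⟩
      · exact Set.subset_union_left.trans (Set.subset_insert _ _)
      · exact (Set.ncard_insert_le _ _).trans (Nat.add_le_add_right hcard 1)
      · exact ⟨z, hzM, by rintro (h | h); exacts [hzy h, hzR h]⟩
      · rintro w ⟨hwM, hwT⟩
        by_contra hcon
        push Not at hcon
        have hwR : w ∉ T ∪ S := fun h => hwT (Set.mem_insert_of_mem _ h)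
        have hwy : w ≠ y := fun h => hwT (h ▸ Set.mem_insert _ _)
        apply hz2
        rw [hfunM z w hzM hwM hzR hwR hzy hwy (fun s hs => iff_of_true (hz1 s hs)
          (hcon s (Set.mem_insert_of_mem _ hs)))]
        exact hcon y (Set.mem_insert _ _)
      · intro h
        obtain ⟨t, ht, ht2⟩ := h z ⟨hzM, fun h => hzR (Or.inl h)⟩
        exact ht2 (hz1 t (Or.inl ht))
  · right
    push Not at z0
    obtain ⟨z, hzM, hzR, hzy, hz1, hz2⟩ := z0
    refine ⟨insert y (T ∪ S), Set.insert_subset hyM hRM, ?_, ?_, ?_, Or.inl ⟨?_, ?_⟩⟩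
    · exact Set.subset_union_left.trans (Set.subset_insert _ _)
    · exact (Set.ncard_insert_le _ _).trans (Nat.add_le_add_right hcard 1)
    · exact ⟨z, hzM, by rintro (h | h); exacts [hzy h, hzR h]⟩
    · rintro w ⟨hwM, hwT⟩
      by_contra hcon
      push Not at hcon
      have hwR : w ∉ T ∪ S := fun h => hwT (Set.mem_insert_of_mem _ h)
      have hwy : w ≠ y := fun h => hwT (h ▸ Set.mem_insert _ _)
      apply hcon y (Set.mem_insert _ _)
      rw [← hfunM z w hzM hwM hzR hwR hzy hwy (fun s hs => iff_of_false (hz1 s hs)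
        (hcon s (Set.mem_insert_of_mem _ hs)))]
      exact hz2
    · intro h
      obtain ⟨t, ht, ht2⟩ := h z ⟨hzM, fun h => hzR (Or.inl h)⟩
      exact hz1 t (Or.inl ht) ht2

lemma core [Finite V] {M : Set V} (hM : IsModule G M) (hM2 : M.Nontrivial) (k : ℕ)
    (hk : ∀ U : Set V, U ⊆ M → U.Nonempty →
      ∃ y ∈ U, ∃ S ⊆ U, y ∉ S ∧ S.ncard ≤ k ∧ SetFun G U y S) :
    ∃ y, ∃ R : Set V, y ∉ R ∧ R.ncard ≤ 3 * k + 3 ∧ SetFun G Set.univ y R := by
  obtain ⟨a, ha, b, hb, hab⟩ := hM2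
  rcases step G hM k hk {a} (by simpa using ha) ⟨a, rfl⟩ ⟨b, hb, fun h => hab (by simpa using h.symm)⟩
    with ⟨y, R, h1, h2, h3⟩ | ⟨T1, hT1, hT01, hc1, hn1, hB1⟩
  · rw [Set.ncard_singleton] at h2
    exact ⟨y, R, h1, by omega, h3⟩
  rw [Set.ncard_singleton] at hc1
  have hT1n : T1.Nonempty := ⟨a, hT01 rfl⟩
  rcases step G hM k hk T1 hT1 hT1n hn1 with ⟨y, R, h1, h2, h3⟩ | ⟨T2, hT2, hT12, hc2, hn2, hB2⟩
  · exact ⟨y, R, h1, by omega, h3⟩
  have hT2n : T2.Nonempty := hT1n.mono hT12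
  -- both blocking properties hold for `T2`
  have mono0 : (∀ z ∈ M \ T1, ∃ t ∈ T1, G.Adj t z) → (∀ z ∈ M \ T2, ∃ t ∈ T2, G.Adj t z) := by
    intro h z hz
    obtain ⟨t, ht, h2⟩ := h z ⟨hz.1, fun h' => hz.2 (hT12 h')⟩
    exact ⟨t, hT12 ht, h2⟩
  have mono1 : (∀ z ∈ M \ T1, ∃ t ∈ T1, ¬ G.Adj t z) →
      (∀ z ∈ M \ T2, ∃ t ∈ T2, ¬ G.Adj t z) := by
    intro h z hz
    obtain ⟨t, ht, h2⟩ := h z ⟨hz.1, fun h' => hz.2 (hT12 h')⟩
    exact ⟨t, hT12 ht, h2⟩
  have both : (∀ z ∈ M \ T2, ∃ t ∈ T2, G.Adj t z) ∧ (∀ z ∈ M \ T2, ∃ t ∈ T2, ¬ G.Adj t z) := by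
    rcases hB1 with ⟨h1, _⟩ | ⟨h1, _⟩ <;> rcases hB2 with ⟨h2, h3⟩ | ⟨h2, h3⟩
    · exact absurd h1 h3
    · exact ⟨mono0 h1, h2⟩
    · exact ⟨h2, mono1 h1⟩
    · exact absurd h1 h3
  rcases step G hM k hk T2 hT2 hT2n hn2 with ⟨y, R, h1, h2, h3⟩ | ⟨T3, hT3, hT23, hc3, hn3, hB3⟩
  · exact ⟨y, R, h1, by omega, h3⟩
  · rcases hB3 with ⟨_, h⟩ | ⟨_, h⟩
    · exact absurd both.1 h
    · exact absurd both.2 h

end core

lemma transport {V : Type} [Finite V] (G : SimpleGraph V) (M : Set V) (k : ℕ)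
    (h : FunLE (G.induce M) k) :
    ∀ U : Set V, U ⊆ M → U.Nonempty →
      ∃ y ∈ U, ∃ S ⊆ U, y ∉ S ∧ S.ncard ≤ k ∧ SetFun G U y S := by
  intro U hU hUn
  obtain ⟨u, hu⟩ := hUn
  obtain ⟨y, hy⟩ := h {m : M | (m : V) ∈ U} ⟨⟨u, hU hu⟩, hu⟩
  obtain ⟨S, hyS, hSk, hfun⟩ := setFun_of_le _ y k hy
  have hinj : Function.Injective (fun a : {m : M | (m : V) ∈ U} => ((a : M) : V)) :=
    fun a b hab => Subtype.ext (Subtype.ext hab)
  refine ⟨y.1.1, y.2, (fun a : {m : M | (m : V) ∈ U} => ((a : M) : V)) '' S, ?_, ?_, ?_, ?_⟩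
  · rintro _ ⟨a, _, rfl⟩; exact a.2
  · rintro ⟨a, ha, hay⟩
    exact hyS ((hinj hay) ▸ ha)
  · rw [Set.ncard_image_of_injective _ hinj]; exact hSk
  · intro z z' hz hz' h1 h2 h3 h4 h5
    let w : {m : M | (m : V) ∈ U} := ⟨⟨z, hU hz⟩, hz⟩
    let w' : {m : M | (m : V) ∈ U} := ⟨⟨z', hU hz'⟩, hz'⟩
    have := hfun w w' (Set.mem_univ _) (Set.mem_univ _) (fun h => h1 ⟨w, h, rfl⟩)
      (fun h => h2 ⟨w', h, rfl⟩) (fun h => h3 (congrArg (fun a : {m : M | (m : V) ∈ U} => ((a : M) : V)) h))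
      (fun h => h4 (congrArg (fun a : {m : M | (m : V) ∈ U} => ((a : M) : V)) h))
      (fun s hs => by
        have := h5 s.1.1 ⟨s, hs, rfl⟩
        simpa [w, w'] using this)
    simpa [w, w'] using this

lemma exists_min_module {V : Type} [Finite V] [Nontrivial V] (G : SimpleGraph V) :
    ∃ M : Set V, IsModule G M ∧ M.Nontrivial ∧ IsPrimeGraph (G.induce M) := by
  have huniv : IsModule G Set.univ := fun v hv => absurd (Set.mem_univ v) hv
  have hex : ∃ n, ∃ M : Set V, IsModule G M ∧ M.Nontrivial ∧ M.ncard = n :=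
    ⟨_, Set.univ, huniv, Set.nontrivial_univ, rfl⟩
  classical
  obtain ⟨M, hM, hMn, hMc⟩ := Nat.find_spec hex
  refine ⟨M, hM, hMn, ?_⟩
  intro N hN
  have hN' : IsModule G (Subtype.val '' N) := by
    intro v hv
    by_cases hvM : v ∈ M
    · rcases hN ⟨v, hvM⟩ (fun h => hv ⟨⟨v, hvM⟩, h, rfl⟩) with h | h
      · left
        rintro _ ⟨m, hm, rfl⟩
        exact h m hm
      · right
        rintro _ ⟨m, hm, rfl⟩
        exact h m hm
    · rcases hM v hvM with h | h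
      · left; rintro _ ⟨m, hm, rfl⟩; exact h m m.2
      · right; rintro _ ⟨m, hm, rfl⟩; exact h m m.2
  by_cases hNt : N.Nontrivial
  · right; left
    have h1 : (Subtype.val '' N).Nontrivial := hNt.image Subtype.val_injective
    have h2 : ¬ (Subtype.val '' N).ncard < Nat.find hex :=
      fun h => Nat.find_min hex h ⟨_, hN', h1, rfl⟩
    have h3 : Subtype.val '' N ⊆ M := by rintro _ ⟨m, _, rfl⟩; exact m.2
    have h4 : Subtype.val '' N = M :=
      Set.eq_of_subset_of_ncard_le h3 (by omega) (Set.toFinite _)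
    ext m
    simp only [Set.mem_univ, iff_true]
    have h5 : (m : V) ∈ Subtype.val '' N := by rw [h4]; exact m.2
    obtain ⟨m', hm', h6⟩ := h5
    rwa [Subtype.ext h6] at hm'
  · rw [Set.not_nontrivial_iff] at hNt
    rcases hNt.eq_empty_or_singleton with h | h
    · left; exact h
    · right; right; exact h

/-- If the prime graphs of a hereditary class `X` of finite graphs have functionality at most `k`,
then all graphs of `X` have functionality at most `3 k + 3`. -/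
theorem result (X : ∀ V : Type, SimpleGraph V → Prop) (hX : IsHereditary X) (k : ℕ)
    (hprime : ∀ (V : Type) [Finite V] (G : SimpleGraph V), X V G → IsPrimeGraph G → FunLE G k) :
    ∀ (V : Type) [Finite V] (G : SimpleGraph V), X V G → FunLE G (3 * k + 3) := by
  intro V _ G hG S hS
  have hH : X S (G.induce S) := hX V S G (G.induce S) ⟨Embedding.induce S⟩ hG
  by_cases hnt : Nontrivial S
  · obtain ⟨M, hM, hMn, hMp⟩ := exists_min_module (G.induce S)
    have hXM : X M ((G.induce S).induce M) := hX S M _ _ ⟨Embedding.induce M⟩ hH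
    have hF := hprime M _ hXM hMp
    obtain ⟨y, R, h1, h2, h3⟩ := core (G.induce S) hM hMn k (transport _ M k hF)
    exact ⟨y, le_of_setFun _ y _ R h1 h2 h3⟩
  · obtain ⟨s, hs⟩ := hS
    refine ⟨⟨s, hs⟩, le_of_setFun _ _ _ ∅ (by simp) (by simp) ?_⟩
    intro z z' _ _ _ _ hz _ _
    rw [not_nontrivial_iff_subsingleton] at hnt
    exact absurd (Subsingleton.elim _ _) hz

end Pool.Agent.Results.MP_42f001_co.PrimeReduction
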